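import Pool.Graph.R_seed8.H416R4.PK.Final

/-!
# Two matchings and four induced matchings, for infinite subcubic graphs
-/

set_option autoImplicit false

namespace Pool.Agent.Results.MP_5d33c3_co.InfiniteGraphs

universe u

/-- Compactness for colourings of ordered pairs. -/
theorem compactness {V : Type u} (Φ : V → V → V → V → Fin 6 → Fin 6 → Fin 6 → Prop)
    (h : ∀ S : Finset V, ∃ c : V → V → Fin 6,
      ∀ a ∈ S, ∀ b ∈ S, ∀ x ∈ S, ∀ y ∈ S, Φ a b x y (c a b) (c b a) (c x y)) :
    ∃ c : V → V → Fin 6, ∀ a b x y, Φ a b x y (c a b) (c b a) (c x y) := by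
  classical
  let K : Finset V → Set (V → V → Fin 6) := fun S =>
    {c | ∀ a ∈ S, ∀ b ∈ S, ∀ x ∈ S, ∀ y ∈ S, Φ a b x y (c a b) (c b a) (c x y)}
  have hcl : ∀ S, IsClosed (K S) := by
    intro S
    have : K S = ⋂ a ∈ S, ⋂ b ∈ S, ⋂ x ∈ S, ⋂ y ∈ S,
        {c : V → V → Fin 6 | Φ a b x y (c a b) (c b a) (c x y)} := by
      ext c
      simp only [K, Set.mem_ofPred_eq, Set.mem_iInter]
    rw [this]
    refine isClosed_biInter fun a _ => isClosed_biInter fun b _ => isClosed_biInter fun x _ =>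
      isClosed_biInter fun y _ => ?_
    let g : (V → V → Fin 6) → Fin 6 × Fin 6 × Fin 6 := fun c => (c a b, c b a, c x y)
    have hg : Continuous g := by
      refine Continuous.prodMk ?_ (Continuous.prodMk ?_ ?_)
      · exact (continuous_apply b).comp (continuous_apply a)
      · exact (continuous_apply a).comp (continuous_apply b)
      · exact (continuous_apply y).comp (continuous_apply x)
    exact (isClosed_discrete {p : Fin 6 × Fin 6 × Fin 6 | Φ a b x y p.1 p.2.1 p.2.2}).preimage hg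
  have hne : (⋂ S, K S).Nonempty := by
    refine IsCompact.nonempty_iInter_of_directed_nonempty_isCompact_isClosed K ?_ ?_ ?_ hcl
    · intro S T
      refine ⟨S ∪ T, ?_, ?_⟩
      · intro c hc a ha b hb x hx y hy
        exact hc a (Finset.mem_union_left _ ha) b (Finset.mem_union_left _ hb) x
          (Finset.mem_union_left _ hx) y (Finset.mem_union_left _ hy)
      · intro c hc a ha b hb x hx y hy
        exact hc a (Finset.mem_union_right _ ha) b (Finset.mem_union_right _ hb) x
          (Finset.mem_union_right _ hx) y (Finset.mem_union_right _ hy)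
    · exact h
    · exact fun S => (hcl S).isCompact
  obtain ⟨c, hc⟩ := hne
  refine ⟨c, fun a b x y => ?_⟩
  have := Set.mem_iInter.1 hc {a, b, x, y}
  exact this a (by simp) b (by simp) x (by simp) y (by simp)

/-- The edges of every graph of maximum degree at most 3, finite or infinite, can be
partitioned into two matchings and four induced matchings. -/
theorem result :
    ∀ (V : Type u) (G : SimpleGraph V), (∀ v : V, (G.neighborSet v).encard ≤ 3) →
      ∃ c : V → V → Fin 6,
        (∀ a b : V, G.Adj a b → c a b = c b a) ∧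
        ∀ a b x y : V, G.Adj a b → G.Adj x y →
          ¬ (a = x ∧ b = y) → ¬ (a = y ∧ b = x) →
          c a b = c x y →
            (a ≠ x ∧ a ≠ y ∧ b ≠ x ∧ b ≠ y) ∧
            (2 ≤ (c a b).val →
              (¬ G.Adj a x ∧ ¬ G.Adj a y ∧ ¬ G.Adj b x ∧ ¬ G.Adj b y)) := by
  classical
  intro V G hG
  obtain ⟨c, hc⟩ := compactness (V := V)
    (fun a b x y i i' j => (G.Adj a b → i = i') ∧ (G.Adj a b → G.Adj x y →
          ¬ (a = x ∧ b = y) → ¬ (a = y ∧ b = x) → i = j →
            (a ≠ x ∧ a ≠ y ∧ b ≠ x ∧ b ≠ y) ∧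
            (2 ≤ i.val → (¬ G.Adj a x ∧ ¬ G.Adj a y ∧ ¬ G.Adj b x ∧ ¬ G.Adj b y)))) (by
    intro S
    let f : Fin S.card → V := fun i => (S.equivFin.symm i : V)
    have hf : Function.Injective f := fun i j hij =>
      S.equivFin.symm.injective (Subtype.ext hij)
    obtain ⟨c, hs, hc⟩ := Pool.Agent.H416R4.PK.packing (Fin S.card) (G.comap f) (by
      intro i
      have hfin : (G.neighborSet (f i)).Finite :=
        Set.finite_of_encard_le_coe (k := 3) (by exact_mod_cast hG (f i))
      have h1 : ((G.comap f).neighborSet i).ncard ≤ (G.neighborSet (f i)).ncard := by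
        refine Set.ncard_le_ncard_of_injOn f ?_ hf.injOn hfin
        intro j hj
        exact hj
      refine h1.trans ?_
      have h2 := hG (f i)
      rw [← hfin.cast_ncard_eq] at h2
      exact_mod_cast h2)
    refine ⟨fun a b => if h : a ∈ S ∧ b ∈ S then
      c (S.equivFin ⟨a, h.1⟩) (S.equivFin ⟨b, h.2⟩) else 0, ?_⟩
    intro a ha b hb x hx y hy
    have e : ∀ z (hz : z ∈ S), f (S.equivFin ⟨z, hz⟩) = z := by
      intro z hz; simp [f]
    have hab : (G.comap f).Adj (S.equivFin ⟨a, ha⟩) (S.equivFin ⟨b, hb⟩) ↔ G.Adj a b := by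
      rw [SimpleGraph.comap_adj, e, e]
    have hxy : (G.comap f).Adj (S.equivFin ⟨x, hx⟩) (S.equivFin ⟨y, hy⟩) ↔ G.Adj x y := by
      rw [SimpleGraph.comap_adj, e, e]
    have hax : (G.comap f).Adj (S.equivFin ⟨a, ha⟩) (S.equivFin ⟨x, hx⟩) ↔ G.Adj a x := by
      rw [SimpleGraph.comap_adj, e, e]
    have hay : (G.comap f).Adj (S.equivFin ⟨a, ha⟩) (S.equivFin ⟨y, hy⟩) ↔ G.Adj a y := by
      rw [SimpleGraph.comap_adj, e, e]
    have hbx : (G.comap f).Adj (S.equivFin ⟨b, hb⟩) (S.equivFin ⟨x, hx⟩) ↔ G.Adj b x := by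
      rw [SimpleGraph.comap_adj, e, e]
    have hby : (G.comap f).Adj (S.equivFin ⟨b, hb⟩) (S.equivFin ⟨y, hy⟩) ↔ G.Adj b y := by
      rw [SimpleGraph.comap_adj, e, e]
    have q : ∀ z w (hz : z ∈ S) (hw : w ∈ S),
        S.equivFin ⟨z, hz⟩ = S.equivFin ⟨w, hw⟩ ↔ z = w := by
      intro z w hz hw; simp
    have h0 := hs (S.equivFin ⟨a, ha⟩) (S.equivFin ⟨b, hb⟩)
    have h1 := hc (S.equivFin ⟨a, ha⟩) (S.equivFin ⟨b, hb⟩) (S.equivFin ⟨x, hx⟩)
      (S.equivFin ⟨y, hy⟩)
    simp only [hab, hxy, hax, hay, hbx, hby, q, ne_eq] at h0 h1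
    simp only [ha, hb, hx, hy, and_self, dif_pos]
    exact ⟨h0, h1⟩)
  exact ⟨c, fun a b => (hc a b a b).1, fun a b x y => (hc a b x y).2⟩

end Pool.Agent.Results.MP_5d33c3_co.InfiniteGraphs
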